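import Pool.Graph.R_seed8.Results.MP_40718a_co.CoverClosure
import Pool.Agent.H14.QF.Mn

/-!
# Quadruple covers by six even subgraphs: long circuits (MP_40718a_co)

Every finite multigraph without cut edges, in which no circuit has more than thirteen edges which are
not local, has six even subgraphs such that every edge is in exactly four of them.  Here the local
edges are the least set of edges which contains all edges of the circuits with at most four edges,
and of the circuits which have at most four edges after local edges have been contracted.  There is
no condition on the order, on the degrees or on the connectivity, and the circumference may be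
unbounded: only the edges which are not local count.  The same holds for the least class of graphs
which contains these graphs, the unions of two even subgraphs (the graphs with a nowhere-zero
4-flow), and the graphs without cut edges of treewidth at most four, carving width at most five or
cutwidth at most six, and which is closed under identification of vertices, edge-disjoint unions,
and sums along edge cuts with at most three edges.

Proof.  A minimal contraction without a nowhere-zero 4-flow and without a Petersen quotient contracts
all local edges (it has no circuits with two, three or four edges, library `W5h8/M9`), and its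
circuits can be lifted so that all their edges are kept; the library theorem on graphs without
circuits with more than thirteen vertices (`N393/C13`) is applied to this contraction.  A smallest
contraction without a quadruple cover has a Petersen quotient whose classes are single vertices up
to sums along cuts with three edges (library `R140/PK`).  The four operations are those of the file
`CoverClosure` of the library.
-/

set_option autoImplicit false

namespace Pool.Agent.Results.MP_40718a_co.LongCircuits

open Finset Pool.Agent

/-- Every vertex has even degree in `(V, C)`; a loop counts twice. -/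
def IsEven {V E : Type} (src dst : E → V) (C : Set E) : Prop :=
  ∀ v, Even ({e | e ∈ C ∧ src e = v}.ncard + {e | e ∈ C ∧ dst e = v}.ncard)

/-- There are six even subgraphs such that every edge is in exactly four of them. -/
def QuadrupleCover {V E : Type} (src dst : E → V) : Prop :=
  ∃ C : Fin 6 → Set E, (∀ i, IsEven src dst (C i)) ∧ ∀ e, {i | e ∈ C i}.ncard = 4

/-- The edges with exactly one end in `Z`. -/
def leaving {V E : Type} (src dst : E → V) (Z : Set V) : Set E :=
  {e | ¬ (src e ∈ Z ↔ dst e ∈ Z)}

/-- The edge `e` is local: it is in every edge set `S` such that each even edge set with at most four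
edges outside of `S` is contained in `S`. -/
def IsLocal {V E : Type} (src dst : E → V) (e : E) : Prop :=
  ∀ S : Set E, (∀ C, IsEven src dst C → (C \ S).ncard ≤ 4 → C ⊆ S) → e ∈ S

/-- Some circuit has more than thirteen edges which are not local: there are `n` different vertices
`v 0, ..., v (n - 1)` such that the edge `e i` joins `v i` and `v (i + 1)` for each `i`, where the
indices are read modulo `n`, and more than thirteen of the edges `e 0, ..., e (n - 1)` are not
local. -/
def HasLongCircuit {V E : Type} (src dst : E → V) : Prop :=
  ∃ (n : ℕ) (v : ℕ → V) (e : ℕ → E), (∀ i < n, ∀ j < n, v i = v j → i = j) ∧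
    (∀ i < n, (src (e i) = v i ∧ dst (e i) = v ((i + 1) % n)) ∨
      (src (e i) = v ((i + 1) % n) ∧ dst (e i) = v i)) ∧
    13 < {i | i < n ∧ ¬ IsLocal src dst (e i)}.ncard

/-- Tree decomposition of the graph, with bags `bag i` for the nodes `i` of the tree `T`. -/
def IsTreeDecomposition {V E ι : Type} (src dst : E → V) (T : SimpleGraph ι)
    (bag : ι → Finset V) : Prop :=
  T.IsTree ∧ (∀ v, ∃ i, v ∈ bag i) ∧ (∀ e, ∃ i, src e ∈ bag i ∧ dst e ∈ bag i) ∧
    ∀ (i j : ι) (p : T.Walk i j), p.IsPath → ∀ k ∈ p.support, ∀ v, v ∈ bag i → v ∈ bag j →
      v ∈ bag k

/-- The treewidth is at most `k`. -/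
def TreewidthLE {V E : Type} (src dst : E → V) (k : ℕ) : Prop :=
  ∃ (ι : Type) (_ : Fintype ι) (T : SimpleGraph ι) (bag : ι → Finset V),
    IsTreeDecomposition src dst T bag ∧ ∀ i, (bag i).card ≤ k + 1

/-- The carving width is at most `k`: `T` is a binary tree whose leaves are labelled bijectively by
the vertices, and for every subtree at most `k` edges leave the set of its leaves. -/
def CarvingWidthLE {V E : Type} [Fintype E] (src dst : E → V) (k : ℕ) : Prop :=
  ∃ T : Pool.Agent.W420.BF.Tr V, T.set = Set.univ ∧ T.Nodup ∧ T.Width src dst k

/-- The cutwidth is at most `k`: the vertices are placed on a line such that at most `k` edges pass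
over each gap. -/
def CutwidthLE {V E : Type} (src dst : E → V) (k : ℕ) : Prop :=
  ∃ f : V → ℕ, Function.Injective f ∧ ∀ n, (leaving src dst {v | f v < n}).ncard ≤ k

open Classical in
/-- Contraction of `Z` to its element `z`: every vertex of `Z` is replaced by `z`. -/
noncomputable def contract {V : Type} (Z : Set V) (z v : V) : V := if v ∈ Z then z else v

open Classical in
/-- The second ends of the edges after the edges in `D` have been replaced by loops. -/
noncomputable def drop {V E : Type} (src dst : E → V) (D : Set E) (e : E) : V :=
  if e ∈ D then src e else dst e

/-- The closure of the basic graphs under identification of vertices, edge-disjoint unions, and sums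
along cuts with at most three edges.  The edge set `E` is fixed (a deleted edge is a loop), the
vertex set may change. -/
inductive Closure {E : Type} [Fintype E] : ∀ {V : Type}, (E → V) → (E → V) → Prop
  | circuits {V : Type} [Finite V] (src dst : E → V) :
      (∀ Z, (leaving src dst Z).ncard ≠ 1) → ¬ HasLongCircuit src dst → Closure src dst
  | flow {V : Type} (src dst : E → V) (C₁ C₂ : Set E) : IsEven src dst C₁ → IsEven src dst C₂ →
      C₁ ∪ C₂ = Set.univ → Closure src dst
  | narrow {V : Type} [Finite V] (src dst : E → V) :
      (∀ Z, (leaving src dst Z).ncard ≠ 1) →
      (TreewidthLE src dst 4 ∨ CarvingWidthLE src dst 5 ∨ CutwidthLE src dst 6) →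
      Closure src dst
  | identify {V W : Type} (src dst : E → V) (c : V → W) : Closure src dst →
      Closure (c ∘ src) (c ∘ dst)
  | union {V : Type} (src dst : E → V) (D : Set E) : Closure src (drop src dst D) →
      Closure src (drop src dst Dᶜ) → Closure src dst
  | sum {V : Type} (src dst : E → V) (Z : Set V) (z z' : V) : z ∈ Z → z' ∉ Z →
      (leaving src dst Z).ncard ≤ 3 → Closure (contract Z z ∘ src) (contract Z z ∘ dst) →
      Closure (contract Zᶜ z' ∘ src) (contract Zᶜ z' ∘ dst) → Closure src dst

open Pool.Agent.X24.QC

theorem qc_of_cov {V E : Type} [Fintype V] [DecidableEq V] [Fintype E] [DecidableEq E]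
    {s t : E → V} (h : R140.PK.Cov s t) : QC s t := by
  obtain ⟨φ, h1, h2⟩ := h
  refine ⟨fun i e => φ e i, fun i x => ?_, fun e => h1 e⟩
  have h3 := congrFun (h2 x) i
  unfold TH362.TF.Four.B at h3
  rw [Finset.sum_apply] at h3
  unfold bd
  refine Eq.trans ?_ h3
  refine Finset.sum_congr (by congr) fun e _ => ?_
  by_cases h4 : s e = x <;> by_cases h5 : t e = x <;> simp [h4, h5]

theorem qc_of_circuits {V E : Type} [Fintype E] [Finite V] {src dst : E → V}
    (h : ∀ Z, (leaving src dst Z).ncard ≠ 1) (hc : ¬ HasLongCircuit src dst) :
    QC src dst := by
  classical
  have := Fintype.ofFinite V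
  refine qc_of_cov (H14.QF.Circ.cov_circ src dst ?_ ?_)
  · intro x hx
    apply h {v | x v = true}
    rw [← hx, ← Set.ncard_coe_finset]
    congr 1
    ext e
    simp only [leaving, Set.mem_ofPred_eq, TH362.TF.cut, coe_filter, mem_univ, true_and]
    cases x (src e) <;> cases x (dst e) <;> simp
  · rintro ⟨n, v, e, hv, he, hcard⟩
    refine hc ⟨n, v, e, hv, he, lt_of_lt_of_le hcard ?_⟩
    rw [← Set.ncard_coe_finset]
    refine Set.ncard_le_ncard ?_ ((Set.finite_lt_nat n).subset fun i hi => hi.1)
    intro i hi
    rw [Finset.mem_coe, Finset.mem_filter, Finset.mem_range] at hi
    exact ⟨hi.1, fun h1 => hi.2 fun S hS => H14.QF.Mn.local_of h1 hS⟩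

/-- Every graph in the class `Closure`, in particular every graph without cut edges in which no
circuit has more than thirteen edges which are not local, has a quadruple cover by six even
subgraphs. -/
theorem result (V E : Type) [Fintype E] (src dst : E → V) (h : Closure src dst) :
    QuadrupleCover src dst := by
  apply CoverClosure.cover_of_qc
  induction h with
  | circuits src dst h hc => exact qc_of_circuits h hc
  | flow src dst C₁ C₂ h1 h2 h => exact CoverClosure.qc_of_flow h1 h2 h
  | narrow src dst h hw => exact CoverClosure.qc_of_narrow h hw
  | identify src dst c _ ih => exact QC.map c ih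
  | union src dst D _ _ ih1 ih2 => exact QC.union D ih1 ih2
  | sum src dst Z z z' hz hz' h3 _ _ ih1 ih2 => exact QC.sum Z hz hz' h3 ih1 ih2

end Pool.Agent.Results.MP_40718a_co.LongCircuits
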