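import Pool.Graph.R_seed8.Results.MP_40718a_co.CoverClosure
import Pool.Agent.H14.QF.Tame

/-!
# Quadruple covers by six even subgraphs: no nine disjoint edges which are not local (MP_40718a_co)

Every finite multigraph without cut edges, which has no nine pairwise disjoint edges which are not
local, has six even subgraphs such that every edge is in exactly four of them.  Here the local edges
are the least set of edges which contains all edges of the circuits with at most four edges, and of
the circuits which have at most four edges after local edges have been contracted.  For instance,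
this holds for the graphs with matching number at most eight, and for the graphs in which eight
vertices meet all edges which are not local.  The same holds for the least class of graphs which
contains these graphs, the unions of two even subgraphs (the graphs with a nowhere-zero 4-flow), and
the graphs without cut edges of treewidth at most four, carving width at most five or cutwidth at
most six, and which is closed under identification of vertices, edge-disjoint unions, and sums along
edge cuts with at most three edges.

Proof.  A minimal contraction without a nowhere-zero 4-flow and without a Petersen quotient contracts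
all local edges, and it has nine disjoint edges (library `W5h8/M9`); these are disjoint in the graph,
and they are not local.  A smallest contraction without a quadruple cover has a Petersen quotient
whose classes are single vertices up to sums along cuts with three edges (library `R140/PK`).  The
four operations are those of the file `CoverClosure` of the library.
-/

set_option autoImplicit false

namespace Pool.Agent.Results.MP_40718a_co.NineDisjointEdges

open Finset Pool.Agent

/-- Every vertex has even degree in `(V, C)`; a loop counts twice. -/
def IsEven {V E : Type} (src dst : E → V) (C : Set E) : Prop :=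
  ∀ v, Even ({e | e ∈ C ∧ src e = v}.ncard + {e | e ∈ C ∧ dst e = v}.ncard)

/-- There are six even subgraphs such that every edge is in exactly four of them. -/
def QuadrupleCover {V E : Type} (src dst : E → V) : Prop :=
  ∃ C : Fin 6 → Set E, (∀ i, IsEven src dst (C i)) ∧ ∀ e, {i | e ∈ C i}.ncard = 4

/-- The edges with exactly one end in `Z`. -/
def leaving {V E : Type} (src dst : E → V) (Z : Set V) : Set E :=
  {e | ¬ (src e ∈ Z ↔ dst e ∈ Z)}

/-- The edge `e` is local: it is in every edge set `S` such that each even edge set with at most four
edges outside of `S` is contained in `S`. -/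
def IsLocal {V E : Type} (src dst : E → V) (e : E) : Prop :=
  ∀ S : Set E, (∀ C, IsEven src dst C → (C \ S).ncard ≤ 4 → C ⊆ S) → e ∈ S

/-- There are no nine edges, pairwise without common end, none of which is local. -/
def NoNineDisjointEdges {V E : Type} (src dst : E → V) : Prop :=
  ¬ ∃ f : Fin 9 → E, (∀ i, ¬ IsLocal src dst (f i)) ∧
    ∀ i j, i ≠ j → Disjoint ({src (f i), dst (f i)} : Set V) {src (f j), dst (f j)}

/-- Tree decomposition of the graph, with bags `bag i` for the nodes `i` of the tree `T`. -/
def IsTreeDecomposition {V E ι : Type} (src dst : E → V) (T : SimpleGraph ι)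
    (bag : ι → Finset V) : Prop :=
  T.IsTree ∧ (∀ v, ∃ i, v ∈ bag i) ∧ (∀ e, ∃ i, src e ∈ bag i ∧ dst e ∈ bag i) ∧
    ∀ (i j : ι) (p : T.Walk i j), p.IsPath → ∀ k ∈ p.support, ∀ v, v ∈ bag i → v ∈ bag j →
      v ∈ bag k

/-- The treewidth is at most `k`. -/
def TreewidthLE {V E : Type} (src dst : E → V) (k : ℕ) : Prop :=
  ∃ (ι : Type) (_ : Fintype ι) (T : SimpleGraph ι) (bag : ι → Finset V),
    IsTreeDecomposition src dst T bag ∧ ∀ i, (bag i).card ≤ k + 1

/-- The carving width is at most `k`: `T` is a binary tree whose leaves are labelled bijectively by
the vertices, and for every subtree at most `k` edges leave the set of its leaves. -/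
def CarvingWidthLE {V E : Type} [Fintype E] (src dst : E → V) (k : ℕ) : Prop :=
  ∃ T : Pool.Agent.W420.BF.Tr V, T.set = Set.univ ∧ T.Nodup ∧ T.Width src dst k

/-- The cutwidth is at most `k`: the vertices are placed on a line such that at most `k` edges pass
over each gap. -/
def CutwidthLE {V E : Type} (src dst : E → V) (k : ℕ) : Prop :=
  ∃ f : V → ℕ, Function.Injective f ∧ ∀ n, (leaving src dst {v | f v < n}).ncard ≤ k

open Classical in
/-- Contraction of `Z` to its element `z`: every vertex of `Z` is replaced by `z`. -/
noncomputable def contract {V : Type} (Z : Set V) (z v : V) : V := if v ∈ Z then z else v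

open Classical in
/-- The second ends of the edges after the edges in `D` have been replaced by loops. -/
noncomputable def drop {V E : Type} (src dst : E → V) (D : Set E) (e : E) : V :=
  if e ∈ D then src e else dst e

/-- The closure of the basic graphs under identification of vertices, edge-disjoint unions, and sums
along cuts with at most three edges.  The edge set `E` is fixed (a deleted edge is a loop), the
vertex set may change. -/
inductive Closure {E : Type} [Fintype E] : ∀ {V : Type}, (E → V) → (E → V) → Prop
  | disjoint {V : Type} [Finite V] (src dst : E → V) :
      (∀ Z, (leaving src dst Z).ncard ≠ 1) → NoNineDisjointEdges src dst → Closure src dst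
  | flow {V : Type} (src dst : E → V) (C₁ C₂ : Set E) : IsEven src dst C₁ → IsEven src dst C₂ →
      C₁ ∪ C₂ = Set.univ → Closure src dst
  | narrow {V : Type} [Finite V] (src dst : E → V) :
      (∀ Z, (leaving src dst Z).ncard ≠ 1) →
      (TreewidthLE src dst 4 ∨ CarvingWidthLE src dst 5 ∨ CutwidthLE src dst 6) →
      Closure src dst
  | identify {V W : Type} (src dst : E → V) (c : V → W) : Closure src dst →
      Closure (c ∘ src) (c ∘ dst)
  | union {V : Type} (src dst : E → V) (D : Set E) : Closure src (drop src dst D) →
      Closure src (drop src dst Dᶜ) → Closure src dst
  | sum {V : Type} (src dst : E → V) (Z : Set V) (z z' : V) : z ∈ Z → z' ∉ Z →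
      (leaving src dst Z).ncard ≤ 3 → Closure (contract Z z ∘ src) (contract Z z ∘ dst) →
      Closure (contract Zᶜ z' ∘ src) (contract Zᶜ z' ∘ dst) → Closure src dst

open Pool.Agent.X24.QC

theorem qc_of_cov {V E : Type} [Fintype V] [DecidableEq V] [Fintype E] [DecidableEq E]
    {s t : E → V} (h : R140.PK.Cov s t) : QC s t := by
  obtain ⟨φ, h1, h2⟩ := h
  refine ⟨fun i e => φ e i, fun i x => ?_, fun e => h1 e⟩
  have h3 := congrFun (h2 x) i
  unfold TH362.TF.Four.B at h3
  rw [Finset.sum_apply] at h3
  unfold bd
  refine Eq.trans ?_ h3
  refine Finset.sum_congr (by congr) fun e _ => ?_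
  by_cases h4 : s e = x <;> by_cases h5 : t e = x <;> simp [h4, h5]

theorem qc_of_disjoint {V E : Type} [Fintype E] [Finite V] {src dst : E → V}
    (h : ∀ Z, (leaving src dst Z).ncard ≠ 1) (hc : NoNineDisjointEdges src dst) :
    QC src dst := by
  classical
  have := Fintype.ofFinite V
  refine qc_of_cov (H14.QF.Tm.cov_tame src dst ?_ (Or.inr (Or.inl ?_)))
  · intro x hx
    apply h {v | x v = true}
    rw [← hx, ← Set.ncard_coe_finset]
    congr 1
    ext e
    simp only [leaving, Set.mem_ofPred_eq, TH362.TF.cut, coe_filter, mem_univ, true_and]
    cases x (src e) <;> cases x (dst e) <;> simp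
  · rintro ⟨f, hf, hd⟩
    exact hc ⟨f, fun i h3 => hf i fun S hS => H14.QF.Mn.local_of h3 hS, hd⟩

/-- Every graph in the class `Closure`, in particular every graph without cut edges and without nine
disjoint edges which are not local, has a quadruple cover by six even subgraphs. -/
theorem result (V E : Type) [Fintype E] (src dst : E → V) (h : Closure src dst) :
    QuadrupleCover src dst := by
  apply CoverClosure.cover_of_qc
  induction h with
  | disjoint src dst h hc => exact qc_of_disjoint h hc
  | flow src dst C₁ C₂ h1 h2 h => exact CoverClosure.qc_of_flow h1 h2 h
  | narrow src dst h hw => exact CoverClosure.qc_of_narrow h hw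
  | identify src dst c _ ih => exact QC.map c ih
  | union src dst D _ _ ih1 ih2 => exact QC.union D ih1 ih2
  | sum src dst Z z z' hz hz' h3 _ _ ih1 ih2 => exact QC.sum Z hz hz' h3 ih1 ih2

end Pool.Agent.Results.MP_40718a_co.NineDisjointEdges
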